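import Mathlib

set_option autoImplicit false

namespace Pool.Agent.H.MP_26fc11_gt

open MeasureTheory Set Metric InnerProductSpace ContinuousLinearMap
open scoped InnerProductSpace

noncomputable section

theorem inv {V : Type} [NormedAddCommGroup V] [NormedSpace ℝ V] [FiniteDimensional ℝ V] [MeasurableSpace V]
    [BorelSpace V] (μ : Measure V) [μ.IsAddHaarMeasure] (f : V →ₗ[ℝ] V) (h : ∀ x, ‖f x‖ = ‖x‖) :
    MeasurePreserving f μ μ ∧ ∀ {W : Type} [NormedAddCommGroup W] [NormedSpace ℝ W] (g : V → W),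
      ∫ x in closedBall 0 1, g (f x) ∂μ = ∫ x in closedBall 0 1, g x ∂μ := by
  let e := (LinearIsometry.mk f h).toLinearIsometryEquiv rfl
  have a : f ⁻¹' closedBall 0 1 = closedBall 0 1 := by ext; simp [h]
  have b := Measure.addHaar_preimage_linearEquiv μ e.toLinearEquiv
  have c := (b _).symm.trans (congrArg μ a)
  rw [ENNReal.mul_eq_right (measure_closedBall_pos μ _ one_pos).ne' measure_closedBall_lt_top.ne] at c
  have m : MeasurePreserving f μ μ := ⟨e.continuous.measurable, Measure.ext fun s hs =>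
    (Measure.map_apply e.continuous.measurable hs).trans ((b s).trans (by rw [c, one_mul]))⟩
  exact ⟨m, fun g => (a ▸ m.setIntegral_preimage_emb e.toHomeomorph.measurableEmbedding g _ :)⟩

/-- vectors -/
abbrev E (d : ℕ) := EuclideanSpace ℂ (Fin d)

/-- operators -/
abbrev M (d : ℕ) := E d →L[ℂ] E d

variable {d : ℕ}

instance : FiniteDimensional ℝ (M d) := Module.Finite.trans ℂ _

/-- basis -/
def e (i : Fin d) : E d := EuclideanSpace.single i 1

/-- trace -/
def τ : M d →L[ℂ] ℂ := LinearMap.toContinuousLinearMap (LinearMap.trace ℂ (E d) ∘ₗ coeLM ℂ)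

theorem τc (X Y : M d) : τ (X * Y) = τ (Y * X) := LinearMap.trace_mul_comm ℂ X.toLinearMap Y.toLinearMap

theorem τs (X : M d) : τ X = ∑ i, ⟪e i, X (e i)⟫_ℂ := by
  simpa [e, τ] using LinearMap.trace_eq_sum_inner X.toLinearMap (EuclideanSpace.basisFun (Fin d) ℂ)

theorem τm (X Y : M d) : τ (star X * Y) = ∑ i, ⟪X (e i), Y (e i)⟫_ℂ := by
  simp [τs, star_eq_adjoint, adjoint_inner_right]

theorem τr (x y : E d) : τ (rankOne ℂ x y) = ⟪y, x⟫_ℂ := trace_rankOne x y

theorem τ1 : τ (1 : M d) = d := by simp [τs, e]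

/-- squared Hilbert Schmidt norm -/
def hs (X : M d) : ℝ := ∑ i, ‖X (e i)‖ ^ 2

theorem τh (X : M d) : τ (star X * X) = hs X := by simp [τm, hs, inner_self_eq_norm_sq_to_K]

theorem hst (X : M d) : hs (star X) = hs X := Complex.ofReal_injective (by rw [← τh, ← τh, τc, star_star])

theorem hm {A : M d} (h : ‖A‖ ≤ 1) (X : M d) : hs (A * X) ≤ hs X :=
  Finset.sum_le_sum fun _ _ => pow_le_pow_left₀ (norm_nonneg _) (by simpa using A.le_of_opNorm_le h _) 2

theorem h1 {X : M d} (h : ‖X‖ ≤ 1) : hs X ≤ d := by simpa [hs, e] using hm h 1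

theorem nh {U : M d} (h : hs U ≤ 1) : ‖U‖ ≤ 1 := opNorm_le_bound _ zero_le_one fun v => by
  have : ‖U v‖ ≤ ∑ i, ‖v i‖ * ‖U (e i)‖ := by
    conv_lhs => rw [← (EuclideanSpace.basisFun (Fin d) ℂ).sum_repr v, map_sum]
    exact (norm_sum_le _ _).trans_eq (by simp [norm_smul, e])
  have := (pow_le_pow_left₀ (norm_nonneg _) this 2).trans (Finset.sum_mul_sq_le_sq_mul_sq _ _ _)
  rw [← EuclideanSpace.norm_sq_eq] at this
  exact (sq_le_sq₀ (norm_nonneg _) (by positivity)).1 (this.trans (by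
    rw [one_mul]
    exact mul_le_of_le_one_right (sq_nonneg _) h))

theorem df {X : M d} (h : ‖X‖ ≤ 1) (v : E d) : ‖(1 - star X * X) v‖ ^ 2 ≤ ‖v‖ ^ 2 - ‖X v‖ ^ 2 := by
  have := pow_le_pow_left₀ (norm_nonneg _) ((star X).le_of_opNorm_le (norm_star X ▸ h) (X v)) 2
  rw [sub_apply, norm_sub_sq (𝕜 := ℂ), mul_apply_eq_comp, one_apply_eq_self, star_eq_adjoint, adjoint_inner_right,
    inner_self_eq_norm_sq]
  rw [star_eq_adjoint] at this
  linarith

theorem d1 {X : M d} (h : ‖X‖ ≤ 1) : ‖1 - star X * X‖ ≤ 1 := opNorm_le_bound _ zero_le_one fun v =>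
  (sq_le_sq₀ (norm_nonneg _) (by positivity)).1 (by linarith [df h v, sq_nonneg ‖X v‖])

theorem sa (X : M d) : star (1 - star X * X) = 1 - star X * X := by
  rw [star_eq_adjoint, map_sub, ← star_eq_adjoint, ← star_eq_adjoint, star_one, star_mul, star_star]

theorem sb (X : M d) : star (1 - X * star X) = 1 - X * star X := by simpa using sa (star X)

/-- the room direction -/
def c (U X : M d) : M d := (1 - X * star X) * U * (1 - star X * X)

theorem room {U X : M d} (hU : ‖U‖ ≤ 1) (h : ‖X‖ ≤ 1) {θ : ℝ} (t : |θ| ≤ 1 / 2) : ‖X + θ • c U X‖ ≤ 1 := by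
  refine opNorm_le_of_re_inner_le zero_le_one fun v u hv hu => ?_
  have a := df h v
  have b := df (norm_star X ▸ h : ‖star X‖ ≤ 1) u
  rw [star_star, hu] at b
  rw [hv] at a
  have p := re_inner_le_norm (𝕜 := ℂ) (X v) u
  have q := re_inner_le_norm (𝕜 := ℂ) v (star X u)
  rw [star_eq_adjoint, adjoint_inner_right, ← star_eq_adjoint, hv] at q
  have r : ‖⟪θ • c U X v, u⟫_ℂ‖ ≤ 1 / 2 * (‖(1 - star X * X) v‖ * ‖(1 - X * star X) u‖) := by
    rw [← Complex.coe_smul, inner_smul_left, norm_mul, RCLike.norm_conj, Complex.norm_real, c, mul_apply_eq_comp,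
      mul_apply_eq_comp, ← adjoint_inner_right, ← star_eq_adjoint, sb]
    refine mul_le_mul t ((norm_inner_le_norm _ _).trans (mul_le_mul_of_nonneg_right ?_ (norm_nonneg _)))
      (norm_nonneg _) (by norm_num)
    exact (U.le_of_opNorm_le hU _).trans_eq (one_mul _)
  have := RCLike.re_le_norm ⟪θ • c U X v, u⟫_ℂ
  rw [add_apply, inner_add_left, map_add, smul_apply]
  rw [hu] at p
  have := two_mul_le_add_sq ‖(1 - star X * X) v‖ ‖(1 - X * star X) u‖
  nlinarith [sq_nonneg (1 - ‖X v‖), sq_nonneg (1 - ‖star X u‖)]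

theorem q1 {U X : M d} (hU : hs U = 1) (h : ‖X‖ ≤ 1) : (τ (star U * c U X)).re ≤ 1 := by
  have a : hs (c U X) ≤ 1 := by
    rw [c, ← hst, star_mul, sa]
    refine (hm (d1 h) _).trans ?_
    rw [hst]
    exact (hm (by simpa using d1 (norm_star X ▸ h : ‖star X‖ ≤ 1)) _).trans hU.le
  have := Finset.sum_le_sum fun i (_ : i ∈ Finset.univ) => (re_inner_le_norm (𝕜 := ℂ) (U (e i)) (c U X (e i))).trans
    (show _ ≤ (‖U (e i)‖ ^ 2 + ‖c U X (e i)‖ ^ 2) / 2 by linarith [two_mul_le_add_sq ‖U (e i)‖ ‖c U X (e i)‖])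
  rw [← Finset.sum_div, Finset.sum_add_distrib] at this
  rw [τm, Complex.re_sum]
  exact this.trans (by change (hs U + hs _) / 2 ≤ _; linarith)

theorem cent {T : M d} (h : ∀ P ∈ unitary (M d), P * T = T * P) : ∃ κ : ℂ, T = κ • 1 :=
  (Algebra.IsCentral.mem_center_iff ℂ).1 (Subalgebra.mem_center_iff.2 fun P => LinearMap.congr_fun (LinearMap.ext_on
    (CStarAlgebra.span_unitary _) (f := .mulRight ℂ T) (g := .mulLeft ℂ T) h) P) |>.imp fun _ a =>
      a.trans (Algebra.algebraMap_eq_smul_one _)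

theorem scal (Φ : M d →ₗ[ℂ] M d) (h : ∀ P ∈ unitary (M d), ∀ Q ∈ unitary (M d), Φ (P * Q) = P * Φ 1 * Q) :
    ∃ κ : ℂ, ∀ U, Φ U = κ • U := by
  obtain ⟨κ, k⟩ := cent (T := Φ 1) fun P a => by simpa using (h P a 1 (one_mem _)).symm.trans (by
    simpa using h 1 (one_mem _) P a)
  exact ⟨κ, LinearMap.congr_fun (LinearMap.ext_on (CStarAlgebra.span_unitary _) (g := κ • .id) fun P a => by
    simpa [k] using h P a 1 (one_mem _))⟩

theorem two (μ : Measure (M d)) [μ.IsAddHaarMeasure] (F : M d → M d →ₗ[ℂ] M d) (cF : ∀ U, Continuous (F · U))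
    (h : ∀ P ∈ unitary (M d), ∀ Q ∈ unitary (M d), ∀ X, F (P * X * Q) (P * Q) = P * F X 1 * Q) {U : M d}
    (hU : hs U = 1) : d ^ 2 * ∫ X in closedBall 0 1, (τ (star U * F X U)).re ∂μ =
      ∫ X in closedBall 0 1, ∑ i, ∑ j, (⟪e i, F X (rankOne ℂ (e i) (e j)) (e j)⟫_ℂ).re ∂μ := by
  have i := fun U => (cF U).continuousOn.integrableOn_compact (μ := μ) (isCompact_closedBall 0 1)
  obtain ⟨κ, k⟩ := scal ⟨⟨fun U => ∫ X in closedBall 0 1, F X U ∂μ, fun U V => by
    simp only [map_add, integral_add (i U) (i V)]⟩, fun a U => by simp only [map_smul, integral_smul, RingHom.id_apply]⟩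
    fun P p Q q => by
      change ∫ X in closedBall 0 1, F X (P * Q) ∂μ = P * (∫ X in closedBall 0 1, F X 1 ∂μ) * Q
      rw [← (inv μ (.mulRight ℝ Q ∘ₗ .mulLeft ℝ P) fun X => by
        simp [CStarRing.norm_mem_unitary_mul _ p, CStarRing.norm_mul_mem_unitary _ q]).2]
      simp only [LinearMap.comp_apply, LinearMap.mulLeft_apply, LinearMap.mulRight_apply, h P p Q q]
      rw [integral_mul_const_of_integrable ((i 1).const_mul P), integral_const_mul_of_integrable (i 1)]
  have a : ∀ (l : M d →L[ℝ] ℝ) V, ∫ X in closedBall 0 1, l (F X V) ∂μ = l (κ • V) := fun l V =>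
    (l.integral_comp_comm (i V)).trans (congrArg l (k V))
  let l := fun i j : Fin d => Complex.reCLM ∘L (innerSL ℂ (e i) ∘L apply ℂ _ (e j)).restrictScalars ℝ
  have b := a (Complex.reCLM ∘L (τ ∘L mul ℂ _ (star U)).restrictScalars ℝ) U
  have j := fun x y => (l x y).integrable_comp (i (rankOne ℂ (e x) (e y)))
  refine ((congrArg _ b).trans ?_).trans ((integral_finsetSum _ fun x _ => integrable_finsetSum _ fun y _ => j x y).trans
    (Finset.sum_congr rfl fun x _ => (integral_finsetSum _ fun y _ => j x y).trans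
      (Finset.sum_congr rfl fun y _ => a (l x y) _))).symm
  simp [l, e, τh, hU, sq, mul_assoc]

end

end Pool.Agent.H.MP_26fc11_gt
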