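import Mathlib
import Pool.Agent.H.MP_26fc11_gt.A

set_option autoImplicit false

namespace Pool.Agent.H.MP_26fc11_gt

open MeasureTheory Set Metric InnerProductSpace ContinuousLinearMap
open Function (update Injective)
open scoped InnerProductSpace

noncomputable section

variable {d : ℕ}

theorem chs : Continuous (hs (d := d)) := by
  unfold hs
  fun_prop

theorem cst : Continuous fun X : M d => star X := adjoint.continuous

theorem e2 (μ : Measure (M d)) [μ.IsAddHaarMeasure] {U : M d} (hU : hs U = 1) :
    d ^ 2 * ∫ X in closedBall 0 1, ‖τ (star U * X)‖ ^ 2 ∂μ ≤ d * μ.real (closedBall 0 1) := by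
  have := two μ (fun X => ((τ ∘L mul ℂ _ (star X)).smulRight X).toLinearMap) (fun U => by
    simp only [coe_coe, smulRight_apply, comp_apply, mul_apply']
    exact (τ.continuous.comp (cst.mul continuous_const)).smul continuous_id) (fun P p Q q X => by
    simp only [coe_coe, smulRight_apply, comp_apply, mul_apply', star_mul, mul_smul_comm, smul_mul_assoc, mul_one]
    rw [mul_assoc, mul_assoc, ← mul_assoc (star P), p.1, one_mul, τc, mul_assoc (star X), q.2, mul_one]) hU
  rw [setIntegral_congr_fun (g := fun X => ‖τ (star U * X)‖ ^ 2) measurableSet_closedBall fun X _ => by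
    have : τ (star X * U) = starRingEnd ℂ (τ (star U * X)) := by simp [τm]
    simp only [coe_coe, smulRight_apply, comp_apply, mul_apply', mul_smul_comm, map_smul, this, smul_eq_mul,
      Complex.conj_mul', ← Complex.ofReal_pow, Complex.ofReal_re]] at this
  rw [this, mul_comm, ← smul_eq_mul, ← setIntegral_const, setIntegral_congr_fun (g := hs) measurableSet_closedBall
    fun X _ => ?_]
  · exact setIntegral_mono_on (chs.continuousOn.integrableOn_compact (isCompact_closedBall _ _))
      (integrableOn_const measure_closedBall_lt_top.ne) measurableSet_closedBall fun X h => h1 (mem_closedBall_zero_iff.1 h)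
  beta_reduce
  rw [Finset.sum_comm]
  refine Finset.sum_congr rfl fun j _ => ?_
  rw [EuclideanSpace.norm_sq_eq]
  refine Finset.sum_congr rfl fun i _ => ?_
  simp only [coe_coe, smulRight_apply, comp_apply, mul_apply', mul_def, comp_rankOne, τr, star_eq_adjoint,
    adjoint_inner_right, smul_apply, inner_smul_right]
  rw [← inner_conj_symm, Complex.conj_mul', ← Complex.ofReal_pow, Complex.ofReal_re]
  simp [e, EuclideanSpace.inner_single_left]

theorem e3 (μ : Measure (M d)) [μ.IsAddHaarMeasure] {U : M d} (hU : hs U = 1) :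
    d ^ 2 * ∫ X in closedBall 0 1, (τ (star U * c U X)).re ∂μ = ∫ X in closedBall 0 1, (d - hs X) ^ 2 ∂μ := by
  refine (two μ (fun X => .mulRight ℂ (1 - star X * X) ∘ₗ .mulLeft ℂ (1 - X * star X)) (fun U => by
    simp only [LinearMap.comp_apply, LinearMap.mulLeft_apply, LinearMap.mulRight_apply]
    exact ((continuous_const.sub (continuous_id.mul cst)).mul continuous_const).mul
      (continuous_const.sub (cst.mul continuous_id))) (fun P p Q q X => by
    have a : ∀ y, star P * (P * y) = y := fun y => by rw [← mul_assoc, p.1, one_mul]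
    have b : ∀ y, Q * (star Q * y) = y := fun y => by rw [← mul_assoc, q.2, one_mul]
    simp only [LinearMap.comp_apply, LinearMap.mulLeft_apply, LinearMap.mulRight_apply, star_mul, mul_sub, sub_mul,
      mul_assoc, a, b, mul_one, one_mul]) hU).trans (setIntegral_congr_fun measurableSet_closedBall fun X _ => ?_)
  have a : τ (1 - star X * X) = (d - hs X : ℝ) := by simp [τ1, τh]
  have b : τ (1 - X * star X) = (d - hs X : ℝ) := by rw [map_sub, τc, ← map_sub, a]
  have := congrArg Complex.re (congrArg₂ (· * ·) b a)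
  rw [← Complex.ofReal_mul, Complex.ofReal_re, τs, τs, Finset.sum_mul_sum, Complex.re_sum] at this
  beta_reduce
  rw [sq, ← this]
  refine Finset.sum_congr rfl fun i _ => ((Complex.re_sum _ _).trans (Finset.sum_congr rfl fun j _ => ?_)).symm
  simp only [LinearMap.comp_apply, LinearMap.mulLeft_apply, LinearMap.mulRight_apply, mul_apply_eq_comp, rankOne_apply,
    map_smul, inner_smul_right, mul_comm]

theorem ball (ν : Measure (E d)) [ν.IsAddHaarMeasure] (S : M d) :
    d * ∫ z in closedBall 0 1, ‖S z‖ ^ 2 ∂ν ≤ hs S * ν.real (closedBall 0 1) := by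
  have i : IntegrableOn (fun z : E d => rankOne ℂ z z) (closedBall 0 1) ν :=
    (((smulRightL ℂ (E d) (E d)).continuous.comp (innerSL ℂ).continuous).clm_apply
      continuous_id).continuousOn.integrableOn_compact (isCompact_closedBall 0 1)
  obtain ⟨κ, k⟩ := cent (T := ∫ z in closedBall 0 1, rankOne ℂ z z ∂ν) fun P p => by
    rw [← integral_const_mul_of_integrable i, ← integral_mul_const_of_integrable i, ← (inv ν (P.toLinearMap.restrictScalars ℝ)
      (norm_map_of_mem_unitary p)).2 fun z => rankOne ℂ z z * P]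
    refine integral_congr_ae (.of_forall fun z => ContinuousLinearMap.ext fun v => ?_)
    simp [inner_map_map_of_mem_unitary p]
  have a : ∀ S : M d, ∫ z in closedBall 0 1, ‖S z‖ ^ 2 ∂ν = κ.re * hs S := fun S => by
    have := (Complex.reCLM ∘L (τ ∘L mul ℂ _ (star S * S)).restrictScalars ℝ).integral_comp_comm i
    rw [k] at this
    refine (integral_congr_ae (.of_forall fun z => ?_)).trans (this.trans (by simp [τh]))
    simp [mul_def, comp_rankOne, τr, star_eq_adjoint, adjoint_inner_right, ← Complex.ofReal_pow]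
  have b := (a 1).ge.trans (setIntegral_mono_on (g := fun _ => 1) ((Continuous.continuousOn (by fun_prop)).integrableOn_compact
    (isCompact_closedBall 0 1)) (integrableOn_const measure_closedBall_lt_top.ne) measurableSet_closedBall
    fun z h => pow_le_one₀ (norm_nonneg _) (mem_closedBall_zero_iff.1 h))
  rw [setIntegral_const, smul_eq_mul, mul_one, show hs (1 : M d) = d by simp [hs, e]] at b
  rw [a, ← mul_assoc, mul_comm (hs S), mul_comm (d : ℝ)]
  exact mul_le_mul_of_nonneg_right b (Finset.sum_nonneg fun _ _ => sq_nonneg _)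

theorem fib {Y : M d} {i : Fin d} (h : Y (e i) = 0) : ∫ r in {r | ‖Y + rankOne ℂ r (e i)‖ ≤ 1}, (d * ‖r‖ ^ 2 + hs Y) ≤
    d * volume.real {r | ‖Y + rankOne ℂ r (e i)‖ ≤ 1} := by
  have k : ∀ r, ‖Y + rankOne ℂ r (e i)‖ ≤ 1 ↔ ∀ w, ‖⟪r, w⟫_ℂ‖ ^ 2 ≤ ‖w‖ ^ 2 - ‖star Y w‖ ^ 2 := fun r => by
    rw [← norm_star, opNorm_le_iff zero_le_one]
    refine forall_congr' fun w => ?_
    rw [one_mul, ← sq_le_sq₀ (norm_nonneg _) (norm_nonneg _), star_eq_adjoint, map_add, adjoint_rankOne, add_apply,
      norm_add_sq (𝕜 := ℂ), rankOne_apply, inner_smul_right, adjoint_inner_left, h, star_eq_adjoint, le_sub_iff_add_le']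
    simp [norm_smul, e]
  rcases eq_empty_or_nonempty {r | ‖Y + rankOne ℂ r (e i)‖ ≤ 1} with a | ⟨r, a⟩
  · simp [a]
  have n : ‖star Y‖ ≤ 1 := opNorm_le_bound _ zero_le_one fun w => (sq_le_sq₀ (norm_nonneg _) (by positivity)).1 (by
    linarith [(k r).1 a w, sq_nonneg ‖⟪r, w⟫_ℂ‖])
  have p : 0 ≤ 1 - Y * star Y := sub_nonneg.2 ((CStarAlgebra.norm_le_one_iff_of_nonneg _ (mul_star_self_nonneg Y)).1
    ((norm_mul_le _ _).trans (mul_le_one₀ (norm_star Y ▸ n) (norm_nonneg _) n)))
  have q := CFC.sqrt_mul_sqrt_self _ p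
  have s : star _ = _ := (CFC.sqrt_nonneg (1 - Y * star Y)).isSelfAdjoint
  generalize CFC.sqrt (1 - Y * star Y) = S at q s
  have t : ∀ v w, ⟪S v, w⟫_ℂ = ⟪v, S w⟫_ℂ := fun v w => by rw [← adjoint_inner_right, ← star_eq_adjoint, s]
  have u : ∀ w, ‖w‖ ^ 2 - ‖star Y w‖ ^ 2 = ‖S w‖ ^ 2 := fun w => by
    rw [← inner_self_eq_norm_sq (𝕜 := ℂ) (S w), t, ← mul_apply_eq_comp, q, sub_apply, inner_sub_right, map_sub,
      mul_apply_eq_comp, ← adjoint_inner_left Y, star_eq_adjoint, inner_self_eq_norm_sq, one_apply_eq_self,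
      inner_self_eq_norm_sq]
  simp only [k, u, sq_le_sq₀ (norm_nonneg _) (norm_nonneg _)]
  by_cases j : Injective S
  · let L := ((LinearEquiv.ofInjectiveEndo S.toLinearMap j).restrictScalars ℝ).toContinuousLinearEquiv
    have l : {r | ∀ w, ‖⟪r, w⟫_ℂ‖ ≤ ‖S w‖} = L.symm ⁻¹' closedBall 0 1 := L.surjective.preimage_injective (by
      ext z
      simp only [mem_preimage, mem_ofPred_eq, L.symm_apply_apply, mem_closedBall_zero_iff]
      refine ⟨fun h => ?_, fun h w => (t z w ▸ norm_inner_le_norm z (S w) :).trans (mul_le_of_le_one_left (norm_nonneg _) h)⟩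
      have := h (L.symm z)
      rw [show L z = S z from rfl, t, show S (L.symm z) = z from L.apply_symm_apply z, inner_self_eq_norm_sq_to_K] at this
      simp only [norm_pow, norm_algebraMap', norm_norm] at this
      nlinarith [norm_nonneg z])
    have m : MeasurableEmbedding L.symm := L.symm.toHomeomorph.measurableEmbedding
    have b := ball (volume.map L.symm) S
    have g : hs S = d - hs Y := Complex.ofReal_injective (by rw [← τh, s, q, map_sub, τc, τh, τ1]; simp)
    have o := isCompact_closedBall (0 : E d) 1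
    rw [m.setIntegral_map, g, Measure.real, m.map_apply] at b
    have o' : IsCompact (L.symm ⁻¹' closedBall 0 1) := L.symm.toHomeomorph.isCompact_preimage.2 o
    rw [l, integral_add (f := fun r : E d => d * ‖r‖ ^ 2) ((Continuous.continuousOn (by fun_prop)).integrableOn_compact o')
      (continuousOn_const.integrableOn_compact o'), integral_const_mul, setIntegral_const, smul_eq_mul]
    simp only [show ∀ z, S (L.symm z) = z from L.apply_symm_apply] at b
    change _ ≤ _ * volume.real (L.symm ⁻¹' _) at b
    linarith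
  obtain ⟨w, a, b⟩ : ∃ w, S w = 0 ∧ w ≠ 0 := by simpa [injective_iff_map_eq_zero] using j
  have := measure_mono_null (s := {r | ∀ w, ‖⟪r, w⟫_ℂ‖ ≤ ‖S w‖}) (fun r h => Submodule.mem_orthogonal_singleton_iff_inner_left.2
    (by simpa [a] using h w)) (Measure.addHaar_submodule volume ((ℂ ∙ w)ᗮ.restrictScalars ℝ) (by simpa))
  simp [setIntegral_measure_zero _ this, Measure.real, this]

/-- columns -/
def col : (Fin d → E d) ≃L[ℝ] M d := (((EuclideanSpace.basisFun (Fin d) ℂ).toBasis.constr ℝ).trans
  (LinearMap.toContinuousLinearMap.restrictScalars ℝ)).toContinuousLinearEquiv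

theorem ce (x : Fin d → E d) (i : Fin d) : col x (e i) = x i := by
  have := (EuclideanSpace.basisFun (Fin d) ℂ).toBasis.constr_basis ℝ x i
  rw [OrthonormalBasis.coe_toBasis, EuclideanSpace.basisFun_apply] at this
  exact this

theorem ee (i j : Fin d) : ⟪e i, e j⟫_ℂ = if i = j then 1 else 0 := by
  simp [e, EuclideanSpace.inner_single_left, Pi.single_apply]

theorem en (i : Fin d) : ‖e i‖ = 1 := by simp [e]

theorem e1 (μ : Measure (M d)) [μ.IsAddHaarMeasure] :
    (2 * d - 1) * ∫ X in closedBall 0 1, hs X ∂μ ≤ d ^ 2 * μ.real (closedBall 0 1) := by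
  have o := isCompact_closedBall (0 : M d) 1
  have k : ∀ i : Fin d, ∫ X in closedBall 0 1, ((d - 1) * ‖X (e i)‖ ^ 2 + hs X) ∂μ ≤ d * μ.real (closedBall 0 1) := fun i => by
    have n : ∀ X : M d, 0 ≤ (d - 1) * ‖X (e i)‖ ^ 2 + hs X := fun X => add_nonneg (mul_nonneg (sub_nonneg.2
      (mod_cast i.pos)) (sq_nonneg _)) (Finset.sum_nonneg fun _ _ => sq_nonneg _)
    have g : Continuous fun X : M d => (d - 1) * ‖X (e i)‖ ^ 2 + hs X := .add (by fun_prop) chs
    have := Measure.pi.isAddHaarMeasure fun _ : Fin d => (volume : Measure (E d))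
    have := col.isAddHaarMeasure_map (Measure.pi fun _ : Fin d => (volume : Measure (E d)))
    rw [Measure.isAddLeftInvariant_eq_smul μ ((Measure.pi fun _ => volume).map col), Measure.restrict_smul, integral_smul_nnreal_measure,
      measureReal_nnreal_smul_apply, mul_left_comm, NNReal.smul_def, smul_eq_mul]
    refine mul_le_mul_of_nonneg_left ?_ (NNReal.coe_nonneg _)
    rw [← ENNReal.ofReal_le_ofReal_iff (by positivity), ofReal_integral_eq_lintegral_ofReal
      (g.continuousOn.integrableOn_compact o) (.of_forall n), ENNReal.ofReal_mul (by positivity), ofReal_measureReal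
      o.measure_ne_top, ← setLIntegral_const, ← lintegral_indicator o.measurableSet, ← lintegral_indicator o.measurableSet]
    have m : MeasurableEmbedding (col (d := d)) := col.toHomeomorph.measurableEmbedding
    refine (m.lintegral_map _).trans_le (le_trans (lintegral_le_of_lmarginal_le {i}
      ((g.measurable.ennreal_ofReal.indicator o.measurableSet).comp m.measurable)
      ((measurable_const.indicator o.measurableSet).comp m.measurable) fun x => ?_) (m.lintegral_map _).ge)
    have y : col (update x i 0) (e i) = 0 := by simp [ce]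
    have a : ∀ r, col (update x i r) = col (update x i 0) + rankOne ℂ r (e i) := fun r =>
      coe_injective ((EuclideanSpace.basisFun (Fin d) ℂ).toBasis.ext fun j => by
        rw [OrthonormalBasis.coe_toBasis, EuclideanSpace.basisFun_apply]
        change col _ (e j) = col _ (e j) + ⟪e i, e j⟫_ℂ • r
        rcases eq_or_ne j i with rfl | h
        · simp [ce, en]
        simp [ce, ee, h, h.symm])
    generalize col (update x i 0) = Y at a y
    have b : ∀ r, (d - 1) * ‖(Y + rankOne ℂ r (e i)) (e i)‖ ^ 2 + hs (Y + rankOne ℂ r (e i)) = d * ‖r‖ ^ 2 + hs Y :=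
      fun r => by
        rw [hs, hs, ← Finset.add_sum_erase _ _ (Finset.mem_univ i), ← Finset.add_sum_erase _ _ (Finset.mem_univ i),
          Finset.sum_congr rfl (g := fun j => ‖Y (e j)‖ ^ 2) fun j h => by simp [ee, (Finset.ne_of_mem_erase h).symm]]
        simp [y, en]
        ring
    have f : IsCompact {r | ‖Y + rankOne ℂ r (e i)‖ ≤ 1} := isCompact_of_isClosed_isBounded
      (isClosed_le (continuous_const.add (smulRightL ℂ _ _ (innerSL ℂ (e i))).continuous).norm continuous_const)
      ((isBounded_closedBall (x := 0) (r := 1)).subset fun r h => by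
        simpa [y, en] using (Y + rankOne ℂ r (e i)).le_of_opNorm_le h (e i))
    have := ENNReal.ofReal_le_ofReal (fib y)
    rw [ofReal_integral_eq_lintegral_ofReal ((Continuous.continuousOn (by fun_prop)).integrableOn_compact f)
      (.of_forall fun r => b r ▸ n _), ENNReal.ofReal_mul (by positivity), ofReal_measureReal f.measure_ne_top,
      ← setLIntegral_const, ← lintegral_indicator f.measurableSet, ← lintegral_indicator f.measurableSet] at this
    simpa only [lmarginal_singleton, Function.comp_apply, a, indicator, mem_closedBall_zero_iff, b, mem_ofPred_eq] using this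
  have j := fun i : Fin d => (show Continuous fun X : M d => (d - 1) * ‖X (e i)‖ ^ 2 + hs X from
    .add (by fun_prop) chs).continuousOn.integrableOn_compact (μ := μ) o
  have := Finset.sum_le_sum fun i (_ : i ∈ Finset.univ) => k i
  rw [← integral_finsetSum _ fun i _ => j i] at this
  rw [← integral_const_mul]
  refine (integral_congr_ae (.of_forall fun X => ?_)).trans_le (this.trans_eq (by simp [sq, mul_assoc]))
  simp only [Finset.sum_add_distrib, ← Finset.mul_sum, Finset.sum_const, Finset.card_univ, Fintype.card_fin, nsmul_eq_mul]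
  change _ = _ * hs X + _
  ring

end

end Pool.Agent.H.MP_26fc11_gt
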