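import Mathlib
import Pool.Agent.H.MP_26fc11_gt.B

set_option autoImplicit false

namespace Pool.Agent.H.MP_26fc11_gt

open MeasureTheory Set Metric InnerProductSpace ContinuousLinearMap
open scoped InnerProductSpace Pointwise

noncomputable section

variable {d : ℕ}

theorem steiner {V : Type} [NormedAddCommGroup V] [InnerProductSpace ℝ V] {K : Set V} {u c v w : V}
    (hv : ⟪u, v⟫_ℝ = 0) (h1 : ∀ x ∈ K, ⟪x, v + c⟫_ℝ ≤ 1) (h2 : ∀ x ∈ K, ⟪x, v - c⟫_ℝ ≤ 1) (hw1 : ∃ s : ℝ, w + s • u ∈ K)
    (hw2 : ENNReal.ofReal (2 * |⟪w, u⟫_ℝ|) ≤ volume {s : ℝ | w + s • u ∈ K}) : ⟪w, v + ⟪u, c⟫_ℝ • u⟫_ℝ ≤ 1 := by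
  have k : ∀ s : ℝ, w + s • u ∈ K → |⟪w, c⟫_ℝ + s * ⟪u, c⟫_ℝ| ≤ 1 - ⟪w, v⟫_ℝ := fun s hs => by
    have a := h1 _ hs
    have b := h2 _ hs
    simp only [inner_add_left, inner_add_right, inner_sub_right, real_inner_smul_left, hv] at a b
    exact abs_le.2 ⟨by linarith, by linarith⟩
  have p := hw1.elim fun s hs => (abs_nonneg _).trans (k s hs)
  rw [inner_add_right, real_inner_smul_right]
  generalize ⟪u, c⟫_ℝ = σ at k
  rcases eq_or_ne σ 0 with rfl | h
  · linarith
  have := hw2.trans (measure_mono (t := closedBall (-⟪w, c⟫_ℝ / σ) ((1 - ⟪w, v⟫_ℝ) / |σ|)) fun s hs => by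
    rw [mem_closedBall, Real.dist_eq, le_div_iff₀ (abs_pos.2 h), ← abs_mul, sub_mul, div_mul_cancel₀ _ h, sub_neg_eq_add,
      add_comm]
    exact k s hs)
  rw [Real.volume_closedBall, ENNReal.ofReal_le_ofReal_iff (by positivity), mul_le_mul_iff_right₀ two_pos,
    le_div_iff₀ (abs_pos.2 h), ← abs_mul] at this
  linarith [le_abs_self (⟪w, u⟫_ℝ * σ)]

/-- good points -/
def G (U : M d) : Set (M d) := {X | ‖X‖ ≤ 1 ∧ 1 / 18 ≤ (τ (star U * c U X)).re ∧ d * ‖τ (star U * X)‖ ^ 2 ≤ 36}

theorem cq (U : M d) : Continuous fun X => (τ (star U * c U X)).re := Complex.continuous_re.comp (τ.continuous.comp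
  (continuous_const.mul (((continuous_const.sub (continuous_id.mul cst)).mul continuous_const).mul
    (continuous_const.sub (cst.mul continuous_id)))))

theorem cG (U : M d) : IsClosed (G U) := (isClosed_le continuous_norm continuous_const).inter
  ((isClosed_le continuous_const (cq U)).inter (isClosed_le (f := fun X => d * ‖τ (star U * X)‖ ^ 2) (by fun_prop)
    continuous_const))

theorem good (μ : Measure (M d)) [μ.IsAddHaarMeasure] (h : 2 ≤ d) {U : M d} (hU : hs U = 1) :
    μ.real (closedBall 0 1) / 36 ≤ μ.real (G U) := by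
  have o := isCompact_closedBall (0 : M d) 1
  have i : ∀ {f : M d → ℝ}, Continuous f → IntegrableOn f (closedBall 0 1) μ := fun h =>
    h.continuousOn.integrableOn_compact o
  have z : Continuous fun X : M d => ‖τ (star U * X)‖ ^ 2 := by fun_prop
  have a := setIntegral_mono_on (i (((cq U).fun_sub (continuous_const (y := 1 / 18))).fun_sub ((continuous_const
    (y := (d : ℝ) / 36)).fun_mul z))) ((i (continuous_const (y := 1))).indicator (cG U).measurableSet) o.measurableSet
    fun X h => by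
      have := q1 hU (mem_closedBall_zero_iff.1 h)
      have : 0 ≤ d * ‖τ (star U * X)‖ ^ 2 := by positivity
      by_cases g : X ∈ G U
      · rw [indicator_of_mem g]
        linarith
      rw [indicator_of_notMem g]
      by_contra! l
      exact g ⟨mem_closedBall_zero_iff.1 h, by linarith, by linarith⟩
  rw [setIntegral_indicator (cG U).measurableSet, inter_eq_right.2 fun X (h : X ∈ G U) => mem_closedBall_zero_iff.2 h.1,
    integral_sub (i ((cq U).fun_sub continuous_const)) (i (continuous_const.fun_mul z)), integral_sub (i (cq U))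
    (i continuous_const), integral_const_mul] at a
  have b := setIntegral_mono_on (i ((continuous_const (y := 5 / 9 * (d : ℝ) ^ 2)).fun_sub ((continuous_const
    (y := 2 / 3 * (d : ℝ))).fun_mul chs))) (i (((continuous_const (y := (d : ℝ))).fun_sub chs).fun_pow 2)) o.measurableSet
    fun X _ => by nlinarith [sq_nonneg (2 / 3 * d - hs X)]
  rw [integral_sub (i continuous_const) (i (continuous_const.fun_mul chs)), integral_const_mul (_ * _), ← e3 μ hU] at b
  have c1 := e1 μ
  have c2 := e2 μ hU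
  simp only [setIntegral_const, smul_eq_mul, mul_one] at a b
  have n : (2 : ℝ) ≤ d := mod_cast h
  have m := measureReal_nonneg (μ := μ) (s := closedBall 0 1)
  have p : ∫ X in closedBall 0 1, hs X ∂μ ≤ 2 / 3 * d * μ.real (closedBall 0 1) :=
    le_of_mul_le_mul_left (c1.trans (by nlinarith [mul_nonneg (mul_nonneg m (sub_nonneg.2 n)) (by linarith : (0 : ℝ) ≤ d)]))
      (by linarith : 0 < 2 * (d : ℝ) - 1)
  have q : μ.real (closedBall 0 1) / 9 ≤ ∫ X in closedBall 0 1, (τ (star U * c U X)).re ∂μ :=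
    le_of_mul_le_mul_left (le_trans (by nlinarith) b) (by positivity)
  have r : d * ∫ X in closedBall 0 1, ‖τ (star U * X)‖ ^ 2 ∂μ ≤ μ.real (closedBall 0 1) :=
    le_of_mul_le_mul_left (by linarith) (by linarith : (0 : ℝ) < d)
  linarith

theorem rot (z : ℂ) {N : ℕ} (h : 0 < N) : ∃ j < N, |(Complex.exp ((8 * j / N : ℝ) * .I) * z).re| ≤ 8 / N * ‖z‖ := by
  have a := Complex.arg_le_pi z
  have b := Complex.neg_pi_lt_arg z
  have p := Real.pi_lt_d2
  have n : (0 : ℝ) < N := mod_cast h
  have c : 0 ≤ (3 * Real.pi / 2 - z.arg) * N / 8 := div_nonneg (mul_nonneg (by linarith [Real.pi_pos]) n.le) (by norm_num)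
  refine ⟨⌊(3 * Real.pi / 2 - z.arg) * N / 8⌋₊, (Nat.floor_lt c).2 (by nlinarith), ?_⟩
  have f := Nat.floor_le c
  have g := Nat.lt_floor_add_one ((3 * Real.pi / 2 - z.arg) * N / 8)
  generalize ⌊(3 * Real.pi / 2 - z.arg) * N / 8⌋₊ = j at f g
  have := Real.abs_cos_sub_cos_le (8 * j / N + z.arg) (Real.pi / 2 + Real.pi)
  rw [Real.cos_add_pi, Real.cos_pi_div_two, neg_zero, sub_zero] at this
  conv_lhs => rw [← Complex.norm_mul_exp_arg_mul_I z, mul_left_comm, ← Complex.exp_add, ← add_mul, ← Complex.ofReal_add,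
    Complex.re_ofReal_mul, Complex.exp_ofReal_mul_I_re, abs_mul, abs_norm, mul_comm]
  refine mul_le_mul_of_nonneg_right (this.trans ?_) (norm_nonneg _)
  rw [le_div_iff₀ n, ← abs_of_pos n, ← abs_mul, abs_of_pos n, sub_mul, add_mul, div_mul_cancel₀ _ n.ne']
  exact abs_le.2 ⟨by linarith, by linarith⟩

/-- points of the polar of the symmetral -/
def P (U : M d) : Set (M d) := {Y | ∃ v w, (τ (star U * v)).re = 0 ∧ ‖v + w‖ ≤ 1 ∧ ‖v - w‖ ≤ 1 ∧
  Y = v + (τ (star U * w)).re • U}

theorem rs (U X : M d) (s : ℝ) : (τ (star U * s • X)).re = s * (τ (star U * X)).re := by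
  rw [← algebraMap_smul ℂ s X, mul_smul_comm, map_smul]
  simp

theorem main {D : ℕ} (h : 2 ≤ D) (μ : Measure (M (D ^ 2))) [μ.IsAddHaarMeasure] {U : M (D ^ 2)} (hU : hs U = 1) :
    ENNReal.ofReal (D / 559872) * μ (closedBall 0 1) ≤ μ (P U) := by
  set n := Module.finrank ℝ (M (D ^ 2))
  have D0 : (2 : ℝ) ≤ D := mod_cast h
  have n0 := n.cast_add_one_pos (α := ℝ)
  obtain ⟨ε, hε⟩ : ∃ ε : ℝ, ε * (108 * D * (n + 1)) = 1 := ⟨_, inv_mul_cancel₀ (by positivity)⟩
  have ε0 : 0 < ε := pos_of_mul_pos_left (hε ▸ one_pos) (by positivity)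
  let A := G U ∩ {X | |(τ (star U * X)).re| ≤ ε}
  have mA : MeasurableSet A := ((cG U).inter (isClosed_le (by fun_prop) continuous_const)).measurableSet
  have fA : μ A ≠ ⊤ := ne_top_of_le_ne_top measure_closedBall_lt_top.ne
    (measure_mono fun X h => mem_closedBall_zero_iff.2 h.1.1)
  have a : μ (G U) ≤ (5184 * (n + 1) : ℕ) * μ A := by
    let f := fun j : ℕ => ((Complex.exp ((8 * j / (5184 * (n + 1) : ℕ) : ℝ) * .I)) • LinearMap.id : M (D ^ 2) →ₗ[ℝ] _)
    refine (measure_mono (t := ⋃ j ∈ Finset.range (5184 * (n + 1)), f j ⁻¹' A) fun X g => ?_).trans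
      ((measure_biUnion_finset_le _ _).trans_eq ?_)
    · obtain ⟨j, p, q⟩ := rot (τ (star U * X)) (N := 5184 * (n + 1)) (by positivity)
      refine mem_iUnion₂.2 ⟨j, Finset.mem_range.2 p, ?_⟩
      have r := Complex.norm_exp_ofReal_mul_I (8 * j / (5184 * (n + 1) : ℕ))
      change (Complex.exp _ • X) ∈ A
      generalize Complex.exp _ = ω at q r
      have s : c U (ω • X) = c U X := by
        have : ω * starRingEnd ℂ ω = 1 := by simp [Complex.mul_conj', r]
        simp [c, star_eq_adjoint, smul_mul_assoc, mul_smul_comm, smul_smul, this, mul_comm (starRingEnd ℂ ω)]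
      refine ⟨⟨by simpa [norm_smul, r] using g.1, s ▸ g.2.1, by simpa [r, mul_smul_comm] using g.2.2⟩, ?_⟩
      have := g.2.2
      push_cast at this q
      have : D * ‖τ (star U * X)‖ ≤ 6 := (sq_le_sq₀ (by positivity) (by norm_num)).1 (by rw [mul_pow]; linarith)
      rw [mem_ofPred_eq, mul_smul_comm, map_smul]
      refine q.trans (le_of_mul_le_mul_right ?_ (show 0 < 108 * (D : ℝ) * (n + 1) by positivity))
      rw [hε]
      field_simp
      linarith
    rw [Finset.sum_congr rfl fun j _ => (inv μ (f j) fun X => by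
      simp only [f, LinearMap.smul_apply, LinearMap.id_apply, norm_smul, Complex.norm_exp_ofReal_mul_I,
        one_mul]).1.measure_preimage mA.nullMeasurableSet]
    simp
  have t : ∀ (X : M (D ^ 2)) (s : ℝ), (τ (star U * (X + s • U))).re = (τ (star U * X)).re + s := fun X s => by
    simp [mul_add, rs, τh, hU]
  have b : (D * (n + 1) : ℕ) * μ A ≤ ENNReal.ofReal 3 * μ (P U) := by
    let B := fun j : ℕ => (· + (-(3 * ε * j)) • U) ⁻¹' A
    have := measure_biUnion_finset (μ := μ) (s := Finset.range (D * (n + 1))) (f := B) (fun i _ j _ l => Set.disjoint_left.2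
      fun X p q => by
        have p := abs_le.1 ((congrArg abs (t X _)).ge.trans p.2)
        have q := abs_le.1 ((congrArg abs (t X _)).ge.trans q.2)
        rcases l.lt_or_gt with l | l <;>
        · have := Nat.cast_le (α := ℝ).2 (Nat.succ_le_of_lt l)
          push_cast at this
          nlinarith) fun j _ => measurable_add_const _ mA
    simp only [B, measure_preimage_add_right, Finset.sum_const, Finset.card_range, nsmul_eq_mul] at this
    rw [← this]
    refine (measure_mono (t := (1 + ε) • P U) (iUnion₂_subset fun j p Y g => ?_)).trans ?_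
    · have p : (j + 1 : ℝ) ≤ D * (n + 1) := mod_cast Finset.mem_range.1 p
      obtain ⟨X, rfl⟩ : ∃ X, Y = X + (3 * ε * j) • U := ⟨_, (sub_add_cancel ..).symm⟩
      rw [mem_preimage, show X + (3 * ε * j) • U + -(3 * ε * j) • U = X from ext fun v => by simp] at g
      obtain ⟨⟨g, k, -⟩, l⟩ := g
      rw [mem_ofPred_eq] at l
      set s := (τ (star U * X)).re with hs'
      set q := (τ (star U * c U X)).re with hq
      have q0 : 0 < q := by linarith
      have r : ∀ θ : ℝ, |θ| ≤ 1 / 2 → ‖(1 + ε)⁻¹ • (X + -s • U) + (1 + ε)⁻¹ • θ • c U X‖ ≤ 1 := fun θ x => by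
        refine ((congrArg norm (smul_add (1 + ε)⁻¹ (X + -s • U) _).symm).trans (norm_smul _ _)).trans_le ?_
        rw [norm_inv, Real.norm_of_nonneg (by positivity), inv_mul_le_one₀ (by positivity), add_right_comm]
        refine (norm_add_le _ _).trans (add_le_add (room (nh hU.le) g x) ((norm_smul (-s) U).trans_le ?_))
        rw [norm_neg]
        exact (mul_le_of_le_one_right (norm_nonneg _) (nh hU.le)).trans l
      have x : |(s + 3 * ε * j) / q| ≤ 1 / 2 := by
        have := abs_le.1 l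
        have : 0 ≤ ε * j := by positivity
        rw [abs_div, abs_of_pos q0, div_le_iff₀ q0]
        exact abs_le.2 ⟨by nlinarith, by nlinarith⟩
      refine ⟨_, ⟨_, _, ?_, r _ x, (congrArg norm (ContinuousLinearMap.ext fun v => ?_)).trans_le (r _ ((abs_neg _).trans_le x)), rfl⟩,
        ext fun v => ?_⟩
      · rw [rs, t, add_neg_cancel, mul_zero]
      · simp [sub_eq_add_neg]
      simp only [rs, ← hq, div_mul_cancel₀ _ q0.ne', smul_apply, add_apply]
      match_scalars <;> field_simp
      ring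
    refine (Measure.addHaar_smul_of_nonneg μ (by positivity) _).trans_le ?_
    refine mul_le_mul_left (ENNReal.ofReal_le_ofReal ((pow_le_pow_left₀ (by positivity)
      (add_comm 1 ε ▸ Real.add_one_le_exp ε) _).trans ?_)) _
    rw [← Real.exp_nat_mul]
    refine (Real.exp_le_exp.2 ?_).trans Real.exp_one_lt_three.le
    change n * ε ≤ 1
    nlinarith [mul_pos ε0 n0]
  have g := good μ (d := D ^ 2) (by nlinarith) hU
  have a := ENNReal.toReal_mono (by finiteness) a
  rw [← ENNReal.mul_le_mul_iff_right (a := ENNReal.ofReal 3) (by simp) (by simp)]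
  refine le_trans ?_ b
  rw [← ofReal_measureReal fA, ← ofReal_measureReal measure_closedBall_lt_top.ne, ← ENNReal.ofReal_natCast,
    ← ENNReal.ofReal_mul (by positivity), ← ENNReal.ofReal_mul (by positivity), ← ENNReal.ofReal_mul (by positivity)]
  refine ENNReal.ofReal_le_ofReal ?_
  rw [ENNReal.toReal_mul, ENNReal.toReal_natCast] at a
  have := mul_le_mul_of_nonneg_left (g.trans a) (show (0 : ℝ) ≤ D by positivity)
  push_cast at this ⊢
  change _ ≤ _ * (μ A).toReal
  linarith

theorem iso (d : ℕ) : ∃ (n : ℕ) (m : EuclideanSpace ℝ (Fin n) ≃L[ℝ] M d), ∀ x y,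
    ⟪x, y⟫_ℝ = (τ (star (m x) * m y)).re := by
  let W := PiLp 2 fun _ : Fin d => E d
  let b := (stdOrthonormalBasis ℝ W).repr.symm
  refine ⟨_, b.toContinuousLinearEquiv.trans ((PiLp.continuousLinearEquiv 2 ℝ _).trans col), fun x y => ?_⟩
  rw [← b.inner_map_map, τm, PiLp.inner_apply, Complex.re_sum]
  refine Finset.sum_congr rfl fun i _ => ?_
  simp [ce, PiLp.inner_apply, Complex.re_sum]
  rfl

end

end Pool.Agent.H.MP_26fc11_gt
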